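import Pool.Agent.Lib.MP_0b43f8_lc.Grid.Top1

set_option autoImplicit false

/-!
# Clique-width of unit interval graphs up to a constant factor, in polynomial time

The definitions `CliqueWidthLE`, `IsUnitInterval` and `input` are in
`Pool/Agent/Lib/MP_0b43f8_lc/Defs.lean`.

The proof (statements of the modules in `Pool/Agent/Lib/MP_0b43f8_lc/Grid/Stmts.lean`).
* For a connected unit interval graph with its left-to-right order let `q v` be the first vertex
  right of `v` that is not adjacent to `v`. From a start `t` we have the columns
  `[t, q t), [q t, q (q t)), …` and, greedily from top to bottom, *strands*: strand `0` consists of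
  the left ends of the columns, and strand `i + 1` is the least sequence below strand `i` that,
  together with it, continues the adjacency pattern of a power of a path.
* If `s` strands survive on `2 s` columns, they form an induced `(s - 1)`-th power of a path with
  `2 s ^ 2` vertices (`Str16`), and this forces clique-width at least `s` (`Low36`).
* If they do not survive, then tracing the failure back gives a set `X` between the first and the
  last column of the window such that at most `14 s` of the pairs `{v, v + 1}` and of the sets
  `{w} ∪ q⁻¹ w` are cut by `X` (`Cut1`).
* The number of classes of a set is at most the number of these cut hyperedges plus `2` (`Cls16`),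
  and one can move from one cheap cut to the next one, vertex by vertex, through sets with
  at most `52 s - 6` classes (`Swp66`, `Chn66`).
* A greedy search computes a left-to-right order of every component (`Ordr75`), and everything is
  computed in polynomial time by a Turing machine (`PTCh52`, `PTSt52`, `PTG52`).
-/

namespace Pool.Agent.Results.MP_0b43f8_lc.ConstantFactor

open Pool.Agent.Lib.MP_0b43f8_lc Pool.Agent.Lib.MP_0b43f8_lc.Grid

/-- A Turing machine (`TM2`) computes in polynomial time, for every unit interval graph `G` with
at least one vertex, a number `k` (in unary) with `cw(G) ≤ k ≤ 52 (cw(G) + 1)`. -/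
theorem result :
    ∃ F : List Bool → List Bool,
      Nonempty (Turing.TM2ComputableInPolyTime (id : List Bool → List Bool) id F) ∧
      ∀ (n : ℕ) (G : SimpleGraph (Fin n)), 1 ≤ n → IsUnitInterval G →
        ∃ k, F (input G) = List.replicate k true ∧ CliqueWidthLE G k ∧
          ∀ j, CliqueWidthLE G j → k ≤ 52 * (j + 1) := by
  refine ⟨algF, ?_, ?_⟩
  · exact Pool.Agent.Lib.PT.ptime_tm' tr_bool_injective ptime_algF fun a => rfl
  · intro n G hn hG
    obtain ⟨h1, h2⟩ := apx n G hn hG
    exact ⟨_, algF_input G, h1, h2⟩

end Pool.Agent.Results.MP_0b43f8_lc.ConstantFactor
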