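import Pool.Agent.Lib.MP_0b43f8_lc.Correct
import Pool.Agent.Lib.MP_0b43f8_lc.TM
import Pool.Agent.Lib.MP_0b43f8_lc.PTA
import Pool.Agent.Lib.MP_0b43f8_lc.PTI
import Pool.Agent.Lib.MP_0b43f8_lc.PTU
import Pool.Agent.Lib.MP_0b43f8_lc.PTB
import Pool.Agent.Lib.MP_0b43f8_lc.PTC
import Pool.Agent.Lib.MP_0b43f8_lc.PTP
import Pool.Agent.Lib.MP_0b43f8_lc.PTS

/-!
# Clique-width of unit interval graphs in time `(n + k + 2) ^ O(min (k, √n) + 1)`

The definitions of the statement are in `Pool/Agent/Lib/MP_0b43f8_lc/Defs.lean`.

The proof.
* Normal form (`NF1.lean`, `NF2.lean`): the clique-width of `G` is at most `k` iff the whole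
  vertex set is reached from labelled vertices by relabellings and unions in which equal labels
  have no cross edge, and two labels with a cross edge are completely joined.
* Twins and components are removed (`Reduce.lean`, for `k ≥ 2`).
* The key lemma (`KeyR.lean`, `Key.lean`): in a connected unit interval graph without true twins,
  a set of vertices with at most `k` different neighbourhoods outside changes membership at most
  `12 k + 2` times along the left-to-right order. So there are at most `(n + 2) ^ (15 k + 4)`
  states (set, representatives of the labels, completely joined pairs of labels), `Count.lean`.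
* The clique-width is at most `3 ⌈√n⌉ + 3` (`Up1.lean`, `Upper.lean`).
* The closure under the operations is computed by a Turing machine in time polynomial in the
  number of states (`PT*.lean`, `TM.lean`).
-/

namespace Pool.Agent.Results.MP_0b43f8_lc.ExactAlgorithm

open Pool.Agent.Lib.MP_0b43f8_lc

open Classical in
/-- There are a constant `c` and a Turing machine that decides `cw(G) ≤ k` for all unit interval
graphs `G` with `n ≥ 1` vertices and all `k ≥ 1` (both in the input) within
`(n + k + 2) ^ (c * (min k ⌊√n⌋ + 1))` steps. -/
theorem result : ∃ (c : ℕ) (M : Turing.TM2ComputableAux Bool Bool),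
    ∀ (n k : ℕ) (G : SimpleGraph (Fin n)), 1 ≤ n → 1 ≤ k → IsUnitInterval G →
      Nonempty (Turing.TM2OutputsInTime M.tm ((inputK G k).map M.inputAlphabet.invFun)
        (some ([decide (CliqueWidthLE G k)].map M.outputAlphabet.invFun))
        ((n + k + 2) ^ (c * (min k (Nat.sqrt n) + 1)))) :=
  stTM2 solve_correct
    (stPTS stPTA (stPTC stPTI (stPTU stPTA) (stPTB stPTA)) (stPTP stPTA))

end Pool.Agent.Results.MP_0b43f8_lc.ExactAlgorithm
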