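import Pool.Agent.Lib.MP_0b43f8_lc.Grid.Top1

set_option autoImplicit false

/-!
# The linear grid theorem for the clique-width of unit interval graphs

The definitions `CliqueWidthLE` and `IsUnitInterval` are in
`Pool/Agent/Lib/MP_0b43f8_lc/Defs.lean`. For the proof see `ConstantFactor.lean` and
`Pool/Agent/Lib/MP_0b43f8_lc/Grid/`: greedy strands (`Str16`), the cheap cut when a strand fails
(`Cut1`), the number of classes of a set with a cheap cut (`Cls16`), the sweep from one cheap cut
to the next (`Swp66`, `Chn66`), the lower bound for powers of paths (`Low36`).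
-/

namespace Pool.Agent.Results.MP_0b43f8_lc.LinearGrid

open Pool.Agent.Lib.MP_0b43f8_lc Pool.Agent.Lib.MP_0b43f8_lc.Grid

/-- The `(s - 1)`-th power of the path with `N` vertices: `a ≠ b` are adjacent iff
`|a - b| < s`. -/
def pathPow (s N : ℕ) : SimpleGraph (Fin N) where
  Adj a b := a ≠ b ∧ (a : ℕ) < b + s ∧ (b : ℕ) < a + s
  symm := ⟨fun _ _ h => ⟨h.1.symm, h.2.2, h.2.1⟩⟩
  loopless := ⟨fun _ h => h.1 rfl⟩

theorem powP_of_emb {n s N : ℕ} {G : SimpleGraph (Fin n)} (hN : 1 ≤ N)
    (e : pathPow s N ↪g G) : ∃ y : ℕ → Fin n, PowP G s N y := by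
  refine ⟨fun b => if h : b < N then e ⟨b, h⟩ else e ⟨0, hN⟩, ?_⟩
  intro a b hab hb
  have ha : a < N := hab.trans hb
  simp only [dif_pos ha, dif_pos hb]
  refine ⟨fun h => ?_, ?_⟩
  · have := congrArg Fin.val (e.injective h)
    simp only at this
    omega
  · rw [e.map_adj_iff]
    change ((⟨a, ha⟩ : Fin N) ≠ ⟨b, hb⟩ ∧ a < b + s ∧ b < a + s) ↔ _
    constructor
    · exact fun h => h.2.2
    · intro h
      refine ⟨fun h' => ?_, by omega, h⟩
      have := congrArg Fin.val h'
      simp only at this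
      omega

theorem emb_of_powP {n s N : ℕ} {G : SimpleGraph (Fin n)} {y : ℕ → Fin n} (h : PowP G s N y) :
    Nonempty (pathPow s N ↪g G) := by
  have hne : ∀ a b : Fin N, a ≠ b → y a ≠ y b := by
    intro a b hab
    rcases lt_or_gt_of_ne (fun h' => hab (Fin.ext h')) with h1 | h1
    · exact (h a b h1 b.2).1
    · exact (h b a h1 a.2).1.symm
  refine ⟨⟨⟨fun a => y a, fun a b hab => ?_⟩, ?_⟩⟩
  · by_contra h1
    exact hne a b h1 hab
  · intro a b
    change G.Adj (y a) (y b) ↔ (a ≠ b ∧ (a : ℕ) < b + s ∧ (b : ℕ) < a + s)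
    rcases Nat.lt_trichotomy (a : ℕ) b with h1 | h1 | h1
    · rw [(h a b h1 b.2).2]
      constructor
      · exact fun h2 => ⟨fun h3 => by rw [h3] at h1; omega, by omega, h2⟩
      · exact fun h2 => h2.2.2
    · have : a = b := Fin.ext h1
      subst this
      simp
    · rw [G.adj_comm, (h b a h1 a.2).2]
      constructor
      · exact fun h2 => ⟨fun h3 => by rw [h3] at h1; omega, h2, by omega⟩
      · exact fun h2 => h2.2.1

/-- For every `s ≥ 2` and every unit interval graph `G` with at least one vertex: `cw(G) ≤ 52 s` or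
`G` contains the `(s - 1)`-th power of the path with `2 s ^ 2` vertices as an induced subgraph;
and in the second case `cw(G) ≥ s`. -/
theorem result : ∀ (n s : ℕ) (G : SimpleGraph (Fin n)), 1 ≤ n → 2 ≤ s → IsUnitInterval G →
    (CliqueWidthLE G (52 * s) ∨ Nonempty (pathPow s (2 * s ^ 2) ↪g G)) ∧
    (Nonempty (pathPow s (2 * s ^ 2) ↪g G) → ∀ j, CliqueWidthLE G j → s ≤ j) := by
  intro n s G hn hs hG
  have he : 2 * s ^ 2 = 2 * s * s := by ring
  rw [he]
  refine ⟨?_, ?_⟩
  · cases h : sucA (adjM n (matrix G)) n s with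
    | false => exact Or.inl (upA n s G hn hs hG h)
    | true =>
      obtain ⟨_, y, hy⟩ := loA n s G h
      exact Or.inr (emb_of_powP hy)
  · rintro ⟨e⟩ j hj
    have hN : 1 ≤ 2 * s * s := by nlinarith
    obtain ⟨y, hy⟩ := powP_of_emb hN e
    exact stCwp_36 n s j G y hs hy hj

end Pool.Agent.Results.MP_0b43f8_lc.LinearGrid
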